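import Pool.Agent.TH783.HB.Prim

/-!
# From equations with at most one solution to equations with at most `m` solutions
-/

set_option autoImplicit false
set_option linter.unusedSectionVars false

namespace Pool.Agent.TH783.HB

open Pool.Agent.TH783.QH

/-- `b` is larger than the heights of all solutions -/
def Bounds (b : ℕ) (D : ℕ × Pol) : Prop := ∀ x ∈ Sol D, ∀ i ∈ x, i < b

/-- height bounders -/
def IsBounder (κ : ℕ∞) (B : ℕ × Pol →. ℕ) : Prop :=
  Partrec B ∧ ∀ D, (Sol D).encard < κ → ∃ b ∈ B D, Bounds b D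

/-- uniform height bounders -/
def IsUniform (B : ℕ × (ℕ × Pol) →. ℕ) : Prop :=
  Partrec B ∧ ∀ (m : ℕ) (D : ℕ × Pol), (Sol D).encard ≤ m → ∃ b ∈ B (m, D), Bounds b D

variable (B : ℕ × Pol →. ℕ)

/-- one step of the search: the state is zero as long as nothing is found, and later the bound
plus one -/
def stepB (a : ℕ × (ℕ × Pol)) (q : ℕ × ℕ) : Part ℕ :=
  cond (decide (q.2 = 0)) ((B (DD (a.1 - q.1) a.2)).map fun b =>
    cond (test b (DD (a.1 - q.1) a.2)) (b + 1) 0) (Part.some q.2)

/-- the search -/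
def runB (a : ℕ × (ℕ × Pol)) (n : ℕ) : Part ℕ :=
  Nat.rec (Part.some 0) (fun i IH => IH.bind fun st => stepB B a (i, st)) n

/-- the uniform bounder -/
def unB (a : ℕ × (ℕ × Pol)) : Part ℕ := (runB B a a.1).map fun st => st - 1

lemma partrec_stepB (hB : Partrec B) : Partrec₂ (stepB B) := by
  have ha : Primrec (fun p : (ℕ × (ℕ × Pol)) × (ℕ × ℕ) => DD (p.1.1 - p.2.1) p.1.2) :=
    prim_DD.comp (Primrec.nat_sub.comp (Primrec.fst.comp Primrec.fst)
      (Primrec.fst.comp Primrec.snd)) (Primrec.snd.comp Primrec.fst)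
  have hc : Computable (fun p : (ℕ × (ℕ × Pol)) × (ℕ × ℕ) => decide (p.2.2 = 0)) :=
    (Primrec.eq.comp (Primrec.snd.comp Primrec.snd) (Primrec.const 0)).decide.to_comp
  refine Partrec.cond hc ?_ (Primrec.snd.comp Primrec.snd).to_comp.partrec
  refine Partrec.map (hB.comp ha.to_comp) ?_
  have h2 : Primrec (fun q : ((ℕ × (ℕ × Pol)) × (ℕ × ℕ)) × ℕ =>
      cond (test q.2 (DD (q.1.1.1 - q.1.2.1) q.1.1.2)) (q.2 + 1) 0) :=
    Primrec.cond (prim_test.comp Primrec.snd (ha.comp Primrec.fst))
      (Primrec.succ.comp Primrec.snd) (Primrec.const 0)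
  exact h2.to_comp

lemma partrec_unB (hB : Partrec B) : Partrec (unB B) := by
  have h1 : Partrec (fun a : ℕ × (ℕ × Pol) => runB B a a.1) :=
    Partrec.nat_rec (f := fun a : ℕ × (ℕ × Pol) => a.1) (g := fun _ => Part.some 0)
      (h := stepB B) Computable.fst (Computable.const 0).partrec (partrec_stepB B hB)
  refine Partrec.map h1 ?_
  exact (Primrec.nat_sub.comp Primrec.snd (Primrec.const 1)).to_comp

variable {B}

lemma run_spec (hB : IsBounder 2 B) {m : ℕ} {D : ℕ × Pol} (hm : (Sol D).encard ≤ m) :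
    ∀ n ≤ m, ∃ st ∈ runB B (m, D) n,
      (st = 0 ∧ (Sol D).encard ≤ (m - n : ℕ)) ∨ ∃ b, st = b + 1 ∧ Bounds b D := by
  intro n
  induction n with
  | zero =>
    intro _
    exact ⟨0, Part.mem_some 0, Or.inl ⟨rfl, by simpa using hm⟩⟩
  | succ n ih =>
    intro hn
    obtain ⟨st, hst, h⟩ := ih (by omega)
    have hrun : runB B (m, D) (n + 1) = (runB B (m, D) n).bind fun st => stepB B (m, D) (n, st) :=
      rfl
    rw [hrun]
    rcases h with ⟨rfl, h⟩ | ⟨b, rfl, hb⟩
    · set k := m - n with hk
      have hk1 : 1 ≤ k := by omega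
      -- the equation for `k` solutions has at most one solution
      have hE : (Sol (DD k D)).encard < 2 := by
        have h1 : (Sol (DD k D)).encard ≤ 1 := by
          rw [Set.encard_le_one_iff]
          exact fun x y hx hy => uniq h hx hy
        exact h1.trans_lt (by norm_num)
      obtain ⟨b, hb, hbd⟩ := hB.2 _ hE
      refine ⟨cond (test b (DD k D)) (b + 1) 0, Part.mem_bind hst ?_, ?_⟩
      · unfold stepB
        simp only [decide_true, cond_true]
        exact Part.mem_map _ hb
      · by_cases ht : test b (DD k D) = true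
        · right
          rw [ht]
          obtain ⟨y, hy, hyb⟩ := (test_iff _ _).1 ht
          exact ⟨b, rfl, bound_of h hy hyb⟩
        · left
          rw [Bool.not_eq_true] at ht
          refine ⟨by rw [ht]; rfl, ?_⟩
          have hne : (Sol D).encard ≠ k := by
            intro heq
            obtain ⟨y, hy⟩ := exist heq
            have := (test_iff b (DD k D)).2 ⟨y, hy, hbd y hy⟩
            rw [ht] at this
            exact Bool.false_ne_true this
          have hlt : (Sol D).encard < k := lt_of_le_of_ne h hne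
          have hfin : (Sol D).Finite := by
            rw [← Set.encard_lt_top_iff]
            exact hlt.trans (ENat.natCast_lt_top k)
          obtain ⟨c, hc⟩ : ∃ c : ℕ, (Sol D).encard = c := ⟨_, hfin.encard_eq_coe_toFinset_card⟩
          rw [hc] at hlt ⊢
          have h1 : c < k := by exact_mod_cast hlt
          have h2 : c ≤ m - (n + 1) := by omega
          exact_mod_cast h2
    · refine ⟨b + 1, Part.mem_bind hst ?_, Or.inr ⟨b, rfl, hb⟩⟩
      unfold stepB
      simp only [Nat.succ_ne_zero, decide_false, cond_false]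
      exact Part.mem_some _

/-- **The uniform bounder** -/
theorem uniform_of_two (hB : IsBounder 2 B) : IsUniform (unB B) := by
  refine ⟨partrec_unB B hB.1, fun m D hm => ?_⟩
  obtain ⟨st, hst, h⟩ := run_spec hB hm m le_rfl
  refine ⟨st - 1, Part.mem_map _ hst, ?_⟩
  rcases h with ⟨rfl, h⟩ | ⟨b, rfl, hb⟩
  · intro x hx
    rw [Nat.sub_self, Nat.cast_zero, nonpos_iff_eq_zero, Set.encard_eq_zero] at h
    rw [h] at hx
    exact hx.elim
  · exact hb

/-- bounders for equations with fewer than `κ` solutions from uniform bounders -/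
theorem bounder_of_uniform {B : ℕ × (ℕ × Pol) →. ℕ} (hB : IsUniform B) (κ : ℕ) :
    ∃ B' : ℕ × Pol →. ℕ, IsBounder κ B' := by
  refine ⟨fun D => B (κ, D), hB.1.comp (Primrec.pair (Primrec.const κ) Primrec.id).to_comp,
    fun D hD => hB.2 κ D hD.le⟩

/-- smaller bounds on the number of solutions -/
theorem IsBounder.mono {κ κ' : ℕ∞} (h : κ ≤ κ') (hB : IsBounder κ' B) : IsBounder κ B :=
  ⟨hB.1, fun D hD => hB.2 D (hD.trans_le h)⟩

end Pool.Agent.TH783.HB
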