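import Pool.Agent.TH783.QH.RedA

/-!
# Encoding the sets of `m` solutions of a Diophantine equation by single solutions
-/

set_option autoImplicit false
set_option linter.unusedSectionVars false

namespace Pool.Agent.TH783.HB

open Pool.Agent.TH783.QH

/-- the values of the variables -/
def val (x : List ℕ) : ℕ → ℤ := fun i => ((x.getD i 0 : ℕ) : ℤ)

/-- the solutions of an equation in natural numbers; an equation is given by the number of
variables and the list of terms -/
def Sol (D : ℕ × Pol) : Set (List ℕ) := {x | x.length = D.1 ∧ ev (val x) D.2 = 0}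

/-! ### Codes of tuples -/

/-- the code of a tuple -/
def codeN (l : List ℕ) : ℕ := l.foldr (fun x c => (c + x) ^ 2 + c) 0

/-- the polynomial computing the code -/
def codeP (l : List ℕ) : Pol := l.foldr (fun i c => sqP (c ++ var i) ++ c) []

lemma ev_codeP (x : List ℕ) (l : List ℕ) :
    ev (val x) (codeP l) = ((codeN (l.map fun i => x.getD i 0) : ℕ) : ℤ) := by
  induction l with
  | nil => simp [codeP, codeN]
  | cons i l ih =>
    have h1 : codeP (i :: l) = sqP (codeP l ++ var i) ++ codeP l := rfl
    have h2 : codeN ((i :: l).map fun i => x.getD i 0) =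
      (codeN (l.map fun i => x.getD i 0) + x.getD i 0) ^ 2 + codeN (l.map fun i => x.getD i 0) := rfl
    rw [h1, h2, ev_append, ev_sq, ev_append, ev_var, ih, val]
    push_cast
    ring

lemma pair_inj {c x c' x' : ℕ} (h : (c + x) ^ 2 + c = (c' + x') ^ 2 + c') : c = c' ∧ x = x' := by
  have h1 : c + x = c' + x' := by
    rcases lt_trichotomy (c + x) (c' + x') with h2 | h2 | h2
    · exfalso
      nlinarith [Nat.mul_le_mul (Nat.succ_le_of_lt h2) (Nat.succ_le_of_lt h2)]
    · exact h2
    · exfalso
      nlinarith [Nat.mul_le_mul (Nat.succ_le_of_lt h2) (Nat.succ_le_of_lt h2)]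
  rw [h1] at h
  omega

lemma codeN_inj : ∀ l l' : List ℕ, l.length = l'.length → codeN l = codeN l' → l = l' := by
  intro l
  induction l with
  | nil =>
    intro l' hl _
    exact (List.length_eq_zero_iff.1 hl.symm).symm
  | cons a l ih =>
    intro l' hl h
    rcases l' with _ | ⟨a', l'⟩
    · simp at hl
    · have h1 : (codeN l + a) ^ 2 + codeN l = (codeN l' + a') ^ 2 + codeN l' := h
      obtain ⟨h2, h3⟩ := pair_inj h1
      rw [h3, ih l' (by simpa using hl) h2]

/-! ### Blocks -/

/-- the block number `j` of length `n` -/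
def blk (x : List ℕ) (n j : ℕ) : List ℕ := (List.range n).map fun i => x.getD (j * n + i) 0

/-- the indices of the block -/
def blkI (n j : ℕ) : List ℕ := (List.range n).map fun i => j * n + i

lemma blk_length (x : List ℕ) (n j : ℕ) : (blk x n j).length = n := by simp [blk]

lemma ev_blk (x : List ℕ) (n j : ℕ) : ev (val x) (codeP (blkI n j)) = (codeN (blk x n j) : ℤ) := by
  rw [ev_codeP, blkI, List.map_map]
  rfl

lemma blk_getD (x : List ℕ) (n j i : ℕ) (hi : i < n) :
    (blk x n j).getD i 0 = x.getD (j * n + i) 0 := by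
  rw [List.getD_eq_getElem _ _ (by rw [blk_length]; exact hi)]
  simp [blk]

/-- the equation for a block -/
def ren (n N j : ℕ) (p : Pol) : Pol :=
  p.map fun t => (t.1, t.2.map fun i => if i < n then j * n + i else N)

lemma ev_ren (x : List ℕ) (n N j : ℕ) (p : Pol) (hx : x.length ≤ N) :
    ev (val x) (ren n N j p) = ev (val (blk x n j)) p := by
  have h : ∀ i, val x (if i < n then j * n + i else N) = val (blk x n j) i := by
    intro i
    unfold val
    congr 1
    split_ifs with hi
    · rw [blk_getD _ _ _ _ hi]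
    · rw [List.getD_eq_default _ _ hx, List.getD_eq_default _ _ (by rw [blk_length]; omega)]
  induction p with
  | nil => simp [ren]
  | cons t p ih =>
    have h1 : ren n N j (t :: p) =
      (t.1, t.2.map fun i => if i < n then j * n + i else N) :: ren n N j p := rfl
    rw [h1, ev_cons, ev_cons, ih, List.map_map]
    congr 3
    exact List.map_congr_left fun i _ => h i

/-- the right-hand side of the condition on the code of a block -/
def rhsP (m n j : ℕ) : Pol :=
  (if j = 0 then [] else codeP (blkI n (j - 1)) ++ [(1, [])]) ++ var (m * n + j)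

/-- the right-hand side -/
def rhs (x : List ℕ) (m n j : ℕ) : ℕ :=
  (if j = 0 then 0 else codeN (blk x n (j - 1)) + 1) + x.getD (m * n + j) 0

lemma ev_rhs (x : List ℕ) (m n j : ℕ) : ev (val x) (rhsP m n j) = (rhs x m n j : ℤ) := by
  unfold rhsP rhs
  rw [ev_append, ev_var]
  split_ifs with h
  · simp [val]
  · rw [ev_append, ev_blk]
    simp [ev, val]

/-- the equation whose solutions are the sets of `m` solutions -/
def DD (m : ℕ) (D : ℕ × Pol) : ℕ × Pol :=
  (m * D.1 + m, (List.range m).flatMap fun j =>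
    sqP (ren D.1 (m * D.1 + m) j D.2) ++ sqP (codeP (blkI D.1 j) ++ negP (rhsP m D.1 j)))

lemma sum_sq_zero {α : Type} (l : List α) (f : α → ℤ) (hf : ∀ a ∈ l, 0 ≤ f a) :
    (l.map f).sum = 0 ↔ ∀ a ∈ l, f a = 0 := by
  induction l with
  | nil => simp
  | cons a l ih =>
    have h1 := hf a List.mem_cons_self
    have h2 : 0 ≤ (l.map f).sum := by
      refine List.sum_nonneg fun r hr => ?_
      rw [List.mem_map] at hr
      obtain ⟨b, hb, rfl⟩ := hr
      exact hf b (List.mem_cons_of_mem _ hb)
    rw [List.map_cons, List.sum_cons]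
    constructor
    · intro h b hb
      rcases List.mem_cons.1 hb with rfl | hb
      · linarith
      · exact (ih fun c hc => hf c (List.mem_cons_of_mem _ hc)).1 (by linarith) b hb
    · intro h
      rw [h a List.mem_cons_self, (ih fun c hc => hf c (List.mem_cons_of_mem _ hc)).2 fun c hc =>
        h c (List.mem_cons_of_mem _ hc), add_zero]

lemma mem_DD (m : ℕ) (D : ℕ × Pol) (x : List ℕ) : x ∈ Sol (DD m D) ↔
    x.length = m * D.1 + m ∧ ∀ j < m, blk x D.1 j ∈ Sol D ∧ codeN (blk x D.1 j) = rhs x m D.1 j := by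
  have hset : x ∈ Sol (DD m D) ↔ x.length = m * D.1 + m ∧ ev (val x) (DD m D).2 = 0 := Iff.rfl
  rw [hset]
  refine and_congr_right fun hx => ?_
  have h1 : ev (val x) (DD m D).2 = ((List.range m).map fun j =>
      ev (val (blk x D.1 j)) D.2 * ev (val (blk x D.1 j)) D.2 +
      ((codeN (blk x D.1 j) : ℤ) - (rhs x m D.1 j : ℤ)) *
        ((codeN (blk x D.1 j) : ℤ) - (rhs x m D.1 j : ℤ))).sum := by
    show ev (val x) ((List.range m).flatMap _) = _
    rw [ev_flatMap]
    congr 1
    refine List.map_congr_left fun j _ => ?_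
    rw [ev_append, ev_sq, ev_sq, ev_ren _ _ _ _ _ hx.le, ev_append, ev_neg, ev_blk, ev_rhs,
      ← sub_eq_add_neg]
  rw [h1, sum_sq_zero _ _ fun j _ => add_nonneg (mul_self_nonneg _) (mul_self_nonneg _)]
  constructor
  · intro h j hj
    have h2 := h j (List.mem_range.2 hj)
    have n1 := mul_self_nonneg (ev (val (blk x D.1 j)) D.2)
    have n2 := mul_self_nonneg ((codeN (blk x D.1 j) : ℤ) - (rhs x m D.1 j : ℤ))
    have e1 : ev (val (blk x D.1 j)) D.2 * ev (val (blk x D.1 j)) D.2 = 0 := by linarith
    have e2 : ((codeN (blk x D.1 j) : ℤ) - (rhs x m D.1 j : ℤ)) *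
        ((codeN (blk x D.1 j) : ℤ) - (rhs x m D.1 j : ℤ)) = 0 := by linarith
    refine ⟨⟨blk_length _ _ _, mul_self_eq_zero.1 e1⟩, ?_⟩
    have := mul_self_eq_zero.1 e2
    rw [sub_eq_zero] at this
    exact_mod_cast this
  · intro h j hj
    obtain ⟨⟨-, h2⟩, h3⟩ := h j (List.mem_range.1 hj)
    rw [h2, h3]
    ring

end Pool.Agent.TH783.HB
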