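import Pool.Agent.TH783.HB.Uniq

/-!
# Computability of the encoding
-/

set_option autoImplicit false
set_option linter.unusedSectionVars false

namespace Pool.Agent.TH783.HB

open Pool.Agent.TH783.QH

lemma prim_int_add : Primrec₂ (fun x y : ℤ => x + y) := by
  have hx : Primrec (fun a : ℤ × ℤ => ((a.1.toNat, (-a.1).toNat), (a.2.toNat, (-a.2).toNat))) :=
    Primrec.pair (Primrec.pair (prim_toNat.comp Primrec.fst) (prim_toNat_neg.comp Primrec.fst))
      (Primrec.pair (prim_toNat.comp Primrec.snd) (prim_toNat_neg.comp Primrec.snd))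
  have hP : Primrec (fun a : (ℕ × ℕ) × (ℕ × ℕ) => a.1.1 + a.2.1) :=
    Primrec.nat_add.comp (Primrec.fst.comp Primrec.fst) (Primrec.fst.comp Primrec.snd)
  have hN : Primrec (fun a : (ℕ × ℕ) × (ℕ × ℕ) => a.1.2 + a.2.2) :=
    Primrec.nat_add.comp (Primrec.snd.comp Primrec.fst) (Primrec.snd.comp Primrec.snd)
  refine (prim_natSub.comp (hP.comp hx) (hN.comp hx)).of_eq fun a => ?_
  obtain ⟨x, y⟩ := a
  push_cast
  omega

lemma prim_cast : Primrec (fun n : ℕ => (n : ℤ)) :=
  (prim_natSub.comp Primrec.id (Primrec.const 0)).of_eq fun n => by simp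

lemma prim_sum : Primrec (fun l : List ℤ => l.sum) := by
  have h : Primrec₂ (fun (_ : List ℤ) (q : ℤ × ℤ) => q.1 + q.2) :=
    prim_int_add.comp (Primrec.fst.comp Primrec.snd) (Primrec.snd.comp Primrec.snd)
  exact (Primrec.list_foldr (α := List ℤ) (f := fun l => l) (g := fun _ => (0 : ℤ))
    (h := fun _ q => q.1 + q.2) Primrec.id (Primrec.const _) h).of_eq fun l => by
      rw [List.sum_eq_foldr]

lemma prim_prod : Primrec (fun l : List ℤ => l.prod) := by
  have h : Primrec₂ (fun (_ : List ℤ) (q : ℤ × ℤ) => q.1 * q.2) :=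
    prim_int_mul.comp (Primrec.fst.comp Primrec.snd) (Primrec.snd.comp Primrec.snd)
  exact (Primrec.list_foldr (α := List ℤ) (f := fun l => l) (g := fun _ => (1 : ℤ))
    (h := fun _ q => q.1 * q.2) Primrec.id (Primrec.const _) h).of_eq fun l => by
      rw [List.prod_eq_foldr]

lemma prim_val : Primrec₂ val := by
  unfold val
  exact prim_cast.comp ((Primrec.list_getD 0).comp Primrec.fst Primrec.snd)

lemma prim_ev : Primrec₂ (fun (x : List ℕ) (p : Pol) => ev (val x) p) := by
  unfold ev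
  refine prim_sum.comp (Primrec.list_map Primrec.snd ?_)
  refine prim_int_mul.comp ?_ (prim_prod.comp (Primrec.list_map ?_ ?_))
  · exact (Primrec.fst.comp Primrec.snd).of_eq fun q => by simp
  · exact Primrec.snd.comp Primrec.snd
  · exact prim_val.comp (Primrec.fst.comp (Primrec.fst.comp Primrec.fst)) Primrec.snd

lemma prim_codeP : Primrec codeP := by
  have h : Primrec₂ (fun (_ : List ℕ) (q : ℕ × Pol) => sqP (q.2 ++ var q.1) ++ q.2) := by
    have h2 : Primrec (fun a : List ℕ × (ℕ × Pol) => a.2.2) := Primrec.snd.comp Primrec.snd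
    have h1 : Primrec (fun a : List ℕ × (ℕ × Pol) => a.2.1) := Primrec.fst.comp Primrec.snd
    exact Primrec.list_append.comp (prim_sqP.comp (Primrec.list_append.comp h2
      (prim_var.comp h1))) h2
  exact Primrec.list_foldr (α := List ℕ) (β := ℕ) (σ := Pol) (f := fun l => l)
    (g := fun _ => ([] : Pol)) (h := fun _ q => sqP (q.2 ++ var q.1) ++ q.2) Primrec.id
    (Primrec.const _) h

lemma prim_blkI : Primrec₂ blkI := by
  unfold blkI
  refine Primrec.list_map (Primrec.list_range.comp Primrec.fst) ?_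
  exact Primrec.nat_add.comp (Primrec.nat_mul.comp (Primrec.snd.comp Primrec.fst)
    (Primrec.fst.comp Primrec.fst)) Primrec.snd

lemma prim_ren : Primrec (fun a : ((ℕ × ℕ) × ℕ) × Pol => ren a.1.1.1 a.1.1.2 a.1.2 a.2) := by
  unfold ren
  refine Primrec.list_map Primrec.snd ?_
  refine Primrec.pair (Primrec.fst.comp Primrec.snd) ?_
  refine Primrec.list_map (Primrec.snd.comp Primrec.snd) ?_
  have hn : Primrec (fun q : ((((ℕ × ℕ) × ℕ) × Pol) × (ℤ × List ℕ)) × ℕ => q.1.1.1.1.1) :=
    Primrec.fst.comp (Primrec.fst.comp (Primrec.fst.comp (Primrec.fst.comp Primrec.fst)))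
  have hN : Primrec (fun q : ((((ℕ × ℕ) × ℕ) × Pol) × (ℤ × List ℕ)) × ℕ => q.1.1.1.1.2) :=
    Primrec.snd.comp (Primrec.fst.comp (Primrec.fst.comp (Primrec.fst.comp Primrec.fst)))
  have hj : Primrec (fun q : ((((ℕ × ℕ) × ℕ) × Pol) × (ℤ × List ℕ)) × ℕ => q.1.1.1.2) :=
    Primrec.snd.comp (Primrec.fst.comp (Primrec.fst.comp Primrec.fst))
  exact Primrec.ite (Primrec.nat_lt.comp Primrec.snd hn)
    (Primrec.nat_add.comp (Primrec.nat_mul.comp hj hn) Primrec.snd) hN

lemma prim_rhsP : Primrec (fun a : (ℕ × ℕ) × ℕ => rhsP a.1.1 a.1.2 a.2) := by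
  unfold rhsP
  have hm : Primrec (fun a : (ℕ × ℕ) × ℕ => a.1.1) := Primrec.fst.comp Primrec.fst
  have hn : Primrec (fun a : (ℕ × ℕ) × ℕ => a.1.2) := Primrec.snd.comp Primrec.fst
  have hj : Primrec (fun a : (ℕ × ℕ) × ℕ => a.2) := Primrec.snd
  refine Primrec.list_append.comp (Primrec.ite (Primrec.eq.comp hj (Primrec.const 0))
    (Primrec.const []) ?_) (prim_var.comp (Primrec.nat_add.comp (Primrec.nat_mul.comp hm hn) hj))
  exact Primrec.list_append.comp (prim_codeP.comp (prim_blkI.comp hn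
    (Primrec.nat_sub.comp hj (Primrec.const 1)))) (Primrec.const _)

theorem prim_DD : Primrec₂ DD := by
  unfold DD
  have hm : Primrec (fun a : ℕ × (ℕ × Pol) => a.1) := Primrec.fst
  have hn : Primrec (fun a : ℕ × (ℕ × Pol) => a.2.1) := Primrec.fst.comp Primrec.snd
  have hp : Primrec (fun a : ℕ × (ℕ × Pol) => a.2.2) := Primrec.snd.comp Primrec.snd
  have hN : Primrec (fun a : ℕ × (ℕ × Pol) => a.1 * a.2.1 + a.1) :=
    Primrec.nat_add.comp (Primrec.nat_mul.comp hm hn) hm
  refine Primrec.pair hN (Primrec.list_flatMap (Primrec.list_range.comp hm) ?_)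
  have hf : Primrec (fun q : (ℕ × (ℕ × Pol)) × ℕ => q.1) := Primrec.fst
  have h1 : Primrec (fun q : (ℕ × (ℕ × Pol)) × ℕ =>
      ren q.1.2.1 (q.1.1 * q.1.2.1 + q.1.1) q.2 q.1.2.2) :=
    prim_ren.comp (Primrec.pair (Primrec.pair (Primrec.pair (hn.comp hf) (hN.comp hf)) Primrec.snd)
      (hp.comp hf))
  have h2 : Primrec (fun q : (ℕ × (ℕ × Pol)) × ℕ => codeP (blkI q.1.2.1 q.2)) :=
    prim_codeP.comp (prim_blkI.comp (hn.comp hf) Primrec.snd)
  have h3 : Primrec (fun q : (ℕ × (ℕ × Pol)) × ℕ => rhsP q.1.1 q.1.2.1 q.2) :=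
    prim_rhsP.comp (Primrec.pair (Primrec.pair (hm.comp hf) (hn.comp hf)) Primrec.snd)
  exact Primrec.list_append.comp (prim_sqP.comp h1)
    (prim_sqP.comp (Primrec.list_append.comp h2 (prim_negP.comp h3)))

/-- the tuples of length `n` of numbers less than `b` -/
def tuples (b n : ℕ) : List (List ℕ) :=
  Nat.rec [[]] (fun _ ih => ih.flatMap fun t => (List.range b).map fun a => a :: t) n

lemma mem_tuples (b n : ℕ) (y : List ℕ) :
    y ∈ tuples b n ↔ y.length = n ∧ ∀ i ∈ y, i < b := by
  induction n generalizing y with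
  | zero =>
    have h : tuples b 0 = [[]] := rfl
    rw [h, List.mem_singleton, List.length_eq_zero_iff]
    constructor
    · rintro rfl
      simp
    · exact fun h => h.1
  | succ n ih =>
    have h : tuples b (n + 1) = (tuples b n).flatMap fun t => (List.range b).map fun a => a :: t :=
      rfl
    rw [h, List.mem_flatMap]
    constructor
    · rintro ⟨t, ht, hy⟩
      rw [List.mem_map] at hy
      obtain ⟨a, ha, rfl⟩ := hy
      rw [ih] at ht
      rw [List.mem_range] at ha
      refine ⟨by simp [ht.1], fun i hi => ?_⟩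
      rcases List.mem_cons.1 hi with rfl | hi
      · exact ha
      · exact ht.2 i hi
    · rintro ⟨h1, h2⟩
      rcases y with _ | ⟨a, t⟩
      · simp at h1
      · refine ⟨t, (ih t).2 ⟨by simpa using h1, fun i hi => h2 i (List.mem_cons_of_mem _ hi)⟩, ?_⟩
        rw [List.mem_map]
        exact ⟨a, List.mem_range.2 (h2 a List.mem_cons_self), rfl⟩

lemma prim_tuples : Primrec₂ tuples := by
  have hstep : Primrec₂ (fun (a : ℕ × ℕ) (q : ℕ × List (List ℕ)) =>
      q.2.flatMap fun t => (List.range a.1).map fun c => c :: t) := by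
    refine Primrec.list_flatMap (Primrec.snd.comp Primrec.snd) ?_
    refine Primrec.list_map (Primrec.list_range.comp (Primrec.fst.comp (Primrec.fst.comp
      Primrec.fst))) ?_
    exact Primrec.list_cons.comp Primrec.snd (Primrec.snd.comp Primrec.fst)
  exact Primrec.nat_rec' (f := fun a : ℕ × ℕ => a.2) (g := fun _ => [[]])
    (h := fun a q => q.2.flatMap fun t => (List.range a.1).map fun c => c :: t) Primrec.snd
    (Primrec.const _) hstep

/-- is there a solution of height less than `b`? -/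
def test (b : ℕ) (E : ℕ × Pol) : Bool :=
  decide (0 < ((tuples b E.1).flatMap fun y => if ev (val y) E.2 = 0 then [y] else []).length)

lemma test_iff (b : ℕ) (E : ℕ × Pol) : test b E = true ↔ ∃ y ∈ Sol E, ∀ i ∈ y, i < b := by
  unfold test
  rw [decide_eq_true_iff, List.length_pos_iff_exists_mem]
  constructor
  · rintro ⟨y, hy⟩
    rw [List.mem_flatMap] at hy
    obtain ⟨z, hz, hy⟩ := hy
    rw [mem_tuples] at hz
    split_ifs at hy with h0
    · exact ⟨z, ⟨hz.1, h0⟩, hz.2⟩
    · simp at hy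
  · rintro ⟨y, hy, hb⟩
    refine ⟨y, ?_⟩
    rw [List.mem_flatMap]
    refine ⟨y, (mem_tuples b E.1 y).2 ⟨hy.1, hb⟩, ?_⟩
    rw [if_pos hy.2]
    exact List.mem_singleton_self y

lemma prim_test : Primrec₂ test := by
  have h : Primrec (fun a : ℕ × (ℕ × Pol) => ((tuples a.1 a.2.1).flatMap fun y =>
      if ev (val y) a.2.2 = 0 then [y] else []).length) := by
    refine Primrec.list_length.comp (Primrec.list_flatMap
      (prim_tuples.comp Primrec.fst (Primrec.fst.comp Primrec.snd)) ?_)
    refine Primrec.ite (Primrec.eq.comp (prim_ev.comp Primrec.snd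
      (Primrec.snd.comp (Primrec.snd.comp Primrec.fst))) (Primrec.const 0)) ?_ (Primrec.const [])
    exact Primrec.list_cons.comp Primrec.snd (Primrec.const [])
  exact (Primrec.nat_lt.comp (Primrec.const 0) h).decide

end Pool.Agent.TH783.HB
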