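import Pool.Agent.TH783.HB.Enc

/-!
# The encoding: uniqueness and existence
-/

set_option autoImplicit false
set_option linter.unusedSectionVars false

namespace Pool.Agent.TH783.HB

open Pool.Agent.TH783.QH

variable {m : ℕ} {D : ℕ × Pol} {x y : List ℕ}

/-- the codes of the blocks -/
def cd (x : List ℕ) (n m : ℕ) (j : Fin m) : ℕ := codeN (blk x n j)

lemma cd_strict (hx : x ∈ Sol (DD m D)) : StrictMono (cd x D.1 m) := by
  obtain ⟨-, h⟩ := (mem_DD m D x).1 hx
  have step : ∀ j, j + 1 < m → codeN (blk x D.1 j) < codeN (blk x D.1 (j + 1)) := by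
    intro j hj
    have h1 := (h (j + 1) hj).2
    rw [rhs, if_neg (Nat.succ_ne_zero j), Nat.add_sub_cancel] at h1
    omega
  have mono : ∀ d j, j + d + 1 < m → codeN (blk x D.1 j) < codeN (blk x D.1 (j + d + 1)) := by
    intro d
    induction d with
    | zero => exact fun j hj => step j hj
    | succ d ih =>
      intro j hj
      exact (ih j (by omega)).trans (step (j + d + 1) (by omega))
  intro i j hij
  have hij' : (i : ℕ) < j := hij
  have h1 := mono (j - i - 1) i (by omega)
  have h2 : (i : ℕ) + (j - i - 1) + 1 = j := by omega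
  rw [h2] at h1
  exact h1

lemma blk_inj (hx : x ∈ Sol (DD m D)) :
    Function.Injective (fun j : Fin m => (⟨blk x D.1 j, (((mem_DD m D x).1 hx).2 j j.2).1⟩ :
      Sol D)) := by
  intro i j hij
  refine (cd_strict hx).injective ?_
  exact congrArg codeN (congrArg Subtype.val hij)

lemma card_le_of (hx : x ∈ Sol (DD m D)) : (m : ℕ∞) ≤ (Sol D).encard := by
  have h1 : (Set.range fun j : Fin m => blk x D.1 j) ⊆ Sol D := by
    rintro _ ⟨j, rfl⟩
    exact (((mem_DD m D x).1 hx).2 j j.2).1
  have h2 : Function.Injective fun j : Fin m => blk x D.1 j := fun i j hij => blk_inj hx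
    (Subtype.ext hij)
  have h3 := h2.encard_range
  rw [ENat.card_eq_coe_fintype_card, Fintype.card_fin] at h3
  exact h3.trans (Set.encard_le_encard h1)

/-- if there are at most `m` solutions, then the blocks are all the solutions -/
lemma blocks_eq (hx : x ∈ Sol (DD m D)) (hm : (Sol D).encard ≤ m) :
    (Set.range fun j : Fin m => blk x D.1 j) = Sol D := by
  have h1 : (Set.range fun j : Fin m => blk x D.1 j) ⊆ Sol D := by
    rintro _ ⟨j, rfl⟩
    exact (((mem_DD m D x).1 hx).2 j j.2).1
  have h2 : Function.Injective fun j : Fin m => blk x D.1 j := fun i j hij => blk_inj hx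
    (Subtype.ext hij)
  have h3 := h2.encard_range
  rw [ENat.card_eq_coe_fintype_card, Fintype.card_fin] at h3
  exact (Set.finite_range _).eq_of_subset_of_encard_le h1 (hm.trans h3)

/-- **Uniqueness** -/
theorem uniq (hm : (Sol D).encard ≤ m) (hx : x ∈ Sol (DD m D)) (hy : y ∈ Sol (DD m D)) :
    x = y := by
  have e1 := blocks_eq hx hm
  have e2 := blocks_eq hy hm
  have hr : Set.range (cd x D.1 m) = Set.range (cd y D.1 m) := by
    have f1 : Set.range (cd x D.1 m) = codeN '' (Set.range fun j : Fin m => blk x D.1 j) := by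
      rw [← Set.range_comp]
      rfl
    have f2 : Set.range (cd y D.1 m) = codeN '' (Set.range fun j : Fin m => blk y D.1 j) := by
      rw [← Set.range_comp]
      rfl
    rw [f1, f2, e1, e2]
  have hf := (StrictMono.range_inj (cd_strict hx) (cd_strict hy)).1 hr
  have hb : ∀ j < m, blk x D.1 j = blk y D.1 j := by
    intro j hj
    refine codeN_inj _ _ (by rw [blk_length, blk_length]) ?_
    exact congrFun hf ⟨j, hj⟩
  obtain ⟨lx, gx⟩ := (mem_DD m D x).1 hx
  obtain ⟨ly, gy⟩ := (mem_DD m D y).1 hy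
  have hz : ∀ j < m, x.getD (m * D.1 + j) 0 = y.getD (m * D.1 + j) 0 := by
    intro j hj
    have g1 := (gx j hj).2
    have g2 := (gy j hj).2
    rw [rhs] at g1 g2
    rw [hb j hj] at g1
    split_ifs at g1 g2 with h0
    · omega
    · rw [hb (j - 1) (by omega)] at g1
      omega
  refine List.ext_getElem (by rw [lx, ly]) fun k h1 h2 => ?_
  rw [← List.getD_eq_getElem _ 0 h1, ← List.getD_eq_getElem _ 0 h2]
  by_cases hk : k < m * D.1
  · have hn : 0 < D.1 := by
      rcases Nat.eq_zero_or_pos D.1 with h0 | h0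
      · rw [h0, mul_zero] at hk
        omega
      · exact h0
    have k1 : k / D.1 < m := Nat.div_lt_of_lt_mul (by rwa [mul_comm] at hk)
    have k2 : k % D.1 < D.1 := Nat.mod_lt _ hn
    have k3 : k / D.1 * D.1 + k % D.1 = k := by
      rw [mul_comm]
      exact Nat.div_add_mod k D.1
    have : (blk x D.1 (k / D.1)).getD (k % D.1) 0 = (blk y D.1 (k / D.1)).getD (k % D.1) 0 := by
      rw [hb _ k1]
    rw [blk_getD _ _ _ _ k2, blk_getD _ _ _ _ k2, k3] at this
    exact this
  · have := hz (k - m * D.1) (by omega)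
    rwa [Nat.add_sub_cancel' (not_lt.1 hk)] at this

/-- bounds are inherited -/
lemma bound_of (hm : (Sol D).encard ≤ m) (hx : x ∈ Sol (DD m D)) {b : ℕ} (hb : ∀ i ∈ x, i < b) :
    ∀ s ∈ Sol D, ∀ i ∈ s, i < b := by
  intro s hs i hi
  rw [← blocks_eq hx hm] at hs
  obtain ⟨j, rfl⟩ := hs
  obtain ⟨lx, -⟩ := (mem_DD m D x).1 hx
  simp only [blk, List.mem_map, List.mem_range] at hi
  obtain ⟨k, hk, rfl⟩ := hi
  have hlt : (j : ℕ) * D.1 + k < x.length := by
    rw [lx]
    have h1 : (j + 1 : ℕ) * D.1 ≤ m * D.1 := Nat.mul_le_mul_right _ j.2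
    rw [add_mul, one_mul] at h1
    omega
  rw [List.getD_eq_getElem _ _ hlt]
  exact hb _ (List.getElem_mem hlt)

/-- **Existence** -/
theorem exist (hm : (Sol D).encard = m) : ∃ x, x ∈ Sol (DD m D) := by
  classical
  have hfin : (Sol D).Finite := by
    rw [← Set.encard_lt_top_iff, hm]
    exact ENat.natCast_lt_top m
  have hinj : Set.InjOn codeN (Sol D) := fun s hs t ht h => codeN_inj _ _ (by rw [hs.1, ht.1]) h
  have hcard : (hfin.toFinset.image codeN).card = m := by
    rw [Finset.card_image_of_injOn (by simpa using hinj)]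
    have := hfin.encard_eq_coe_toFinset_card
    rw [hm] at this
    exact_mod_cast this.symm
  set f := (hfin.toFinset.image codeN).orderEmbOfFin hcard with hf
  have hs : ∀ j : Fin m, ∃ s, s ∈ Sol D ∧ codeN s = f j := by
    intro j
    have h1 := Finset.orderEmbOfFin_mem (hfin.toFinset.image codeN) hcard j
    rw [Finset.mem_image] at h1
    obtain ⟨s, hs, hs'⟩ := h1
    exact ⟨s, by simpa using hs, hs'⟩
  choose s hs1 hs2 using hs
  set s' : ℕ → List ℕ := fun j => if h : j < m then s ⟨j, h⟩ else [] with hs'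
  have s'1 : ∀ j < m, s' j ∈ Sol D := fun j hj => by
    rw [hs']
    simp only [hj, dif_pos]
    exact hs1 _
  have s'2 : ∀ j, j + 1 < m → codeN (s' j) < codeN (s' (j + 1)) := fun j hj => by
    rw [hs']
    simp only [hj, show j < m by omega, dif_pos]
    rw [hs2, hs2]
    exact f.strictMono (by simp)
  set x : List ℕ := (List.range (m * D.1 + m)).map fun k => if k < m * D.1 then
    (s' (k / D.1)).getD (k % D.1) 0 else codeN (s' (k - m * D.1)) -
      (if k - m * D.1 = 0 then 0 else codeN (s' (k - m * D.1 - 1)) + 1) with hx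
  have lx : x.length = m * D.1 + m := by simp [hx]
  have gx : ∀ k < m * D.1 + m, x.getD k 0 = if k < m * D.1 then
      (s' (k / D.1)).getD (k % D.1) 0 else codeN (s' (k - m * D.1)) -
      (if k - m * D.1 = 0 then 0 else codeN (s' (k - m * D.1 - 1)) + 1) := by
    intro k hk
    rw [List.getD_eq_getElem _ _ (by rw [lx]; exact hk)]
    simp [hx]
  have hb : ∀ j < m, blk x D.1 j = s' j := by
    intro j hj
    refine List.ext_getElem (by rw [blk_length, (s'1 j hj).1]) fun i h1 h2 => ?_
    rw [← List.getD_eq_getElem _ 0 h1, ← List.getD_eq_getElem _ 0 h2]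
    rw [blk_length] at h1
    have h3 : (j + 1 : ℕ) * D.1 ≤ m * D.1 := Nat.mul_le_mul_right _ hj
    rw [add_mul, one_mul] at h3
    rw [blk_getD _ _ _ _ h1, gx _ (by omega), if_pos (by omega)]
    have h4 : (j * D.1 + i) / D.1 = j := by
      rw [mul_comm, Nat.mul_add_div (by omega), Nat.div_eq_of_lt h1, add_zero]
    have h5 : (j * D.1 + i) % D.1 = i := by
      rw [mul_comm, Nat.mul_add_mod, Nat.mod_eq_of_lt h1]
    rw [h4, h5]
  refine ⟨x, (mem_DD m D x).2 ⟨lx, fun j hj => ⟨?_, ?_⟩⟩⟩
  · rw [hb j hj]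
    exact s'1 j hj
  · have hlt : ¬ (m * D.1 + j < m * D.1) := by omega
    rw [rhs, hb j hj, gx _ (by omega), if_neg hlt, Nat.add_sub_cancel_left]
    by_cases h0 : j = 0
    · rw [if_pos h0, if_pos h0]
      omega
    · rw [if_neg h0, if_neg h0, hb (j - 1) (by omega)]
      have := s'2 (j - 1) (by omega)
      rw [Nat.sub_add_cancel (by omega)] at this
      omega

end Pool.Agent.TH783.HB
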